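import Pool.Agent.H498.BG.LimMain
import Pool.Agent.H498.BG.Sharp

/-!
# `ℓ`-adic Galois representations from congruences at most places

Let `K` be a number field and `Π` an `L`-algebraic automorphic representation of `GL_n` over `K`, unramified
outside `S`, with the polynomials `P v = det (X - s_v)` of the Satake parameters over the number field `E`; let
`ι : E → ℚ̄_ℓ` be an embedding. The Galois representation `r_Π` of the question is usually constructed as a
limit: for each `m` one finds a Galois representation `ρ m` modulo `ℓ ^ m` which is congruent to `Π` at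
*every* place outside `S` (for instance one that comes from forms `Π_m` which are congruent to `Π` modulo `ℓ ^ m`
and have Galois representations, or from torsion classes), and then the `ρ m` can be glued.

We show that congruences at *most* places suffice: for each `m` one may discard an arbitrary set `D m` of
places, which may be infinite and may vary with `m`, as long as its upper density is less than `1 / (4 n ^ 2)`
and each place outside `S` is kept for infinitely many `m`. No relation between the `ρ m` is assumed; they are
representations over `ℤ̄_ℓ / ℓ ^ m`, they need not lift to characteristic zero, and they may be ramified at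
infinitely many places (for varying `m`). The limit `r_Π` exists, is unramified at all places outside `S` and has
the Frobenius polynomial `ι (P v)` at each of them; moreover the congruences with `ρ m` turn out to hold
everywhere. The bound is optimal: for `n = 1` and every number field `K` and prime `ℓ` there are systems with
`D m` of density exactly `1 / 4` for which there is no limit.

The proof uses an uncertainty principle over the rings `ℤ̄_ℓ / ℓ ^ m`: if a nonzero function on a group with values
in a ring with totally ordered divisibility has rank `d`, then `d` translates of its support cover the group.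
It is applied to the difference of two traces, `d = 2 n ^ 2`, and gives by Chebotarev's theorem that
representations modulo `ℓ ^ m` whose traces agree outside a set of upper density less than `1 / (2 n ^ 2)` have
the same traces. The limit of the traces is a function of rank at most `n ^ 2` on the Galois group, whose values
on the powers of an element of the group algebra are the power sums of `n` numbers; we show that such a function
is the trace of a semisimple representation.

Places are finite places `v` of `K`; `IsFrob v σ`, `IsInert v σ`: `σ` is a Frobenius element (an element of the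
inertia group) of a place of the algebraic closure above `v`.
-/

set_option autoImplicit false

namespace Pool.Agent.Results.MP_666dc0_nt.CongruencesAtMostPlaces

open NumberField IsDedekindDomain Polynomial
open Pool.Agent.W401.Cheb (GK IsFrob IsInert dens)
open Pool.Agent.X320.DS (Semisimple)

section
variable (ℓ : ℕ) [Fact ℓ.Prime]

/-- the field `ℚ̄_ℓ`, with the `ℓ`-adic absolute value -/
def Qbar : Type := PadicAlgCl ℓ

noncomputable instance : NormedField (Qbar ℓ) := PadicAlgCl.normedField ℓ

/-- the ring `ℤ̄_ℓ` of the elements of absolute value at most one of `ℚ̄_ℓ` -/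
noncomputable def integers : Subring (Qbar ℓ) where
  carrier := {x | ‖x‖ ≤ 1}
  mul_mem' ha hb := (norm_mul_le _ _).trans (mul_le_one₀ ha (norm_nonneg _) hb)
  one_mem' := norm_one.le
  add_mem' ha hb := (PadicAlgCl.isNonarchimedean ℓ _ _).trans (max_le ha hb)
  zero_mem' := norm_zero.le.trans zero_le_one
  neg_mem' ha := (norm_neg _).le.trans ha

/-- the ring `ℤ̄_ℓ` -/
def Zbar : Type := integers ℓ

noncomputable instance : CommRing (Zbar ℓ) := (integers ℓ).toCommRing

/-- the ring `ℤ̄_ℓ / ℓ ^ m` -/
def ZbarMod (m : ℕ) : Type := Zbar ℓ ⧸ Ideal.span {(ℓ : Zbar ℓ) ^ m}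

noncomputable instance (m : ℕ) : CommRing (ZbarMod ℓ m) :=
  Ideal.Quotient.commRing (Ideal.span {(ℓ : Zbar ℓ) ^ m})

/-- reduction modulo `ℓ ^ m` -/
noncomputable def red (m : ℕ) : Zbar ℓ →+* ZbarMod ℓ m := Ideal.Quotient.mk _

end

variable {K : Type} [Field K] [NumberField K] {E : Type} [Field E] {ℓ : ℕ} [Fact ℓ.Prime] {n : ℕ}

/-- the element `x` of `ℚ̄_ℓ` is integral with the reduction `y` modulo `ℓ ^ m` -/
def ReducesTo (m : ℕ) (x : Qbar ℓ) (y : ZbarMod ℓ m) : Prop := ∃ h : x ∈ integers ℓ, red ℓ m ⟨x, h⟩ = y

/-- the upper natural density of the set `D` of places: `dens` is the number of places in `D` of norm at most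
`N`, divided by the number of primes up to `N` -/
noncomputable def upperDensity (D : Set (HeightOneSpectrum (𝓞 K))) : ℝ :=
  Filter.limsup (dens fun v => v ∈ D) Filter.atTop

/-- The representation `ρ` over `ℤ̄_ℓ / ℓ ^ m` is unramified at `v`, and the coefficients of the characteristic
polynomials of the Frobenius elements at `v` are the reductions of those of `P`. -/
structure MatchesMod (m : ℕ) (ρ : GK K →* GL (Fin n) (ZbarMod ℓ m)) (P : (Qbar ℓ)[X])
    (v : HeightOneSpectrum (𝓞 K)) : Prop where
  unramified : ∀ τ, IsInert v τ → ρ τ = 1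
  frobenius : ∀ σ, IsFrob v σ → ∀ j, ReducesTo m (P.coeff j) ((ρ σ).val.charpoly.coeff j)

/-- The representations `ρ m` over `ℤ̄_ℓ / ℓ ^ m` are continuous and match the polynomials `ι (P v)` for the
places `v` outside `S` and `D m`; each place `v` outside `S` is outside `D m` for infinitely many `m`. -/
structure CongruentSystem (ι : E →+* Qbar ℓ) (S : Set (HeightOneSpectrum (𝓞 K)))
    (P : HeightOneSpectrum (𝓞 K) → E[X]) (ρ : (m : ℕ) → GK K →* GL (Fin n) (ZbarMod ℓ m))
    (D : ℕ → Set (HeightOneSpectrum (𝓞 K))) : Prop where
  finite : S.Finite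
  continuous : ∀ m, IsOpen ((ρ m).ker : Set (GK K))
  congruent : ∀ m, ∀ v ∉ S, v ∉ D m → MatchesMod m (ρ m) ((P v).map ι) v
  infinite : ∀ v ∉ S, {m | v ∉ D m}.Infinite

/-- The representation `r` is continuous and semisimple, it is unramified at the places outside `S`, and
`ι (P v)` is the characteristic polynomial of the Frobenius elements at `v`. -/
def Attached (ι : E →+* Qbar ℓ) (S : Set (HeightOneSpectrum (𝓞 K)))
    (P : HeightOneSpectrum (𝓞 K) → E[X]) (r : GK K →* GL (Fin n) (Qbar ℓ)) : Prop :=
  Continuous r ∧ Semisimple r ∧ ∀ v ∉ S, (∀ τ, IsInert v τ → r τ = 1) ∧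
    ∀ σ, IsFrob v σ → (r σ).val.charpoly = (P v).map ι

/-- the traces of `r` are integral, and their reductions modulo `ℓ ^ m` are the traces of `ρ`, on the whole
Galois group -/
def Reduces (r : GK K →* GL (Fin n) (Qbar ℓ)) (m : ℕ) (ρ : GK K →* GL (Fin n) (ZbarMod ℓ m)) : Prop :=
  ∀ g, ReducesTo m (r g).val.trace (ρ g).val.trace

/-- sets of places of upper density less than `1 / (4 n ^ 2)` may be discarded -/
def LimitsExist (K : Type) [Field K] [NumberField K] (ℓ : ℕ) [Fact ℓ.Prime] : Prop :=
  ∀ (E : Type) [Field E] [NumberField E] (ι : E →+* Qbar ℓ) (n : ℕ), 0 < n →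
    ∀ (S : Set (HeightOneSpectrum (𝓞 K))) (P : HeightOneSpectrum (𝓞 K) → E[X])
      (ρ : (m : ℕ) → GK K →* GL (Fin n) (ZbarMod ℓ m)) (D : ℕ → Set (HeightOneSpectrum (𝓞 K))),
    CongruentSystem ι S P ρ D → (∀ m, upperDensity (D m) < 1 / (4 * n ^ 2)) →
    ∃ r : GK K →* GL (Fin n) (Qbar ℓ), Attached ι S P r ∧ ∀ m, Reduces r m (ρ m)

/-- the bound is optimal for `n = 1` -/
def OptimalForOne (K : Type) [Field K] [NumberField K] (ℓ : ℕ) [Fact ℓ.Prime] : Prop :=
  ∃ (ι : ℚ →+* Qbar ℓ) (S : Set (HeightOneSpectrum (𝓞 K))) (P : HeightOneSpectrum (𝓞 K) → ℚ[X])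
    (ρ : (m : ℕ) → GK K →* GL (Fin 1) (ZbarMod ℓ m)) (D : ℕ → Set (HeightOneSpectrum (𝓞 K))),
    CongruentSystem ι S P ρ D ∧ (∀ m, upperDensity (D m) = 1 / (4 * 1 ^ 2)) ∧
      ¬ ∃ r : GK K →* GL (Fin 1) (Qbar ℓ), Attached ι S P r

theorem result (K : Type) [Field K] [NumberField K] (ℓ : ℕ) [Fact ℓ.Prime] :
    LimitsExist K ℓ ∧ OptimalForOne K ℓ := by
  refine ⟨?_, ?_⟩
  · intro E _ _ ι n hn S P ρ D H hD
    let b := Module.finBasis ℚ E
    let ι' : E →+* PadicAlgCl ℓ := ι
    let ρ' : (m : ℕ) → GK K →* GL (Fin n) (Pool.Agent.H498.BG.ZQ ℓ m) := ρ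
    let L : Submodule ℚ_[ℓ] (PadicAlgCl ℓ) := Submodule.span ℚ_[ℓ] (Set.range fun i => ι' (b i))
    have : FiniteDimensional ℚ_[ℓ] L := FiniteDimensional.span_of_finite ℚ_[ℓ] (Set.finite_range _)
    have hL : ∀ x : E, ι' x ∈ L := by
      intro x
      rw [← b.sum_repr x, map_sum]
      refine Submodule.sum_mem _ fun i _ => ?_
      have e : ι' (b.repr x i • b i) = ((b.repr x i : ℚ) : ℚ_[ℓ]) • ι' (b i) := by
        rw [Algebra.smul_def, map_mul, Algebra.smul_def]
        congr 1
        rw [map_ratCast]
        simp
      rw [e]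
      exact Submodule.smul_mem _ _ (Submodule.subset_span ⟨i, rfl⟩)
    have hsys : Pool.Agent.H498.BG.Sys S (fun v => (P v).map ι') L ρ' D :=
      { pos := hn
        fin := H.finite
        coeff := fun v _ j => by
          rw [Polynomial.coeff_map]
          exact hL _
        opn := H.continuous
        dens := hD
        mat := fun m v hv hvD =>
          { unramified := (H.congruent m v hv hvD).unramified
            frobenius := fun σ hσ j => by
              obtain ⟨h, e⟩ := (H.congruent m v hv hvD).frobenius σ hσ j
              exact ⟨h, e.symm⟩ }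
        inf := H.infinite }
    obtain ⟨r, h1, h2, h3, h4⟩ := hsys.main
    exact ⟨r, ⟨h1, h2, h3⟩, h4⟩
  · obtain ⟨S, P, ρ, D, h1, h2, h3, h4, h5, h6⟩ := Pool.Agent.H498.BG.sharp K ℓ
    refine ⟨(algebraMap ℚ (PadicAlgCl ℓ) : ℚ →+* PadicAlgCl ℓ), S, P, ρ, D, ⟨h1, h2, ?_, h5⟩,
      fun m => (h3 m).trans (by norm_num), ?_⟩
    · intro m v hv hvD
      exact
        { unramified := (h4 m v hv hvD).unramified
          frobenius := fun σ hσ j => by
            obtain ⟨h, e⟩ := (h4 m v hv hvD).frobenius σ hσ j
            exact ⟨h, e.symm⟩ }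
    rintro ⟨r, hr, _, hr'⟩
    exact h6 ⟨r, hr, fun v hv => (hr' v hv).2⟩

end Pool.Agent.Results.MP_666dc0_nt.CongruencesAtMostPlaces
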