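import Pool.Agent.H498.Sp.Final

/-!
# Galois representations for all functorial lifts to `GL_N` do not formally give the parameter of `SO_{2n+1}`

Let `G = SO_{2n+1}` over a number field `K`, with dual group `Sp_{2n}`. A standard strategy for the conjecture of
Buzzard and Gee for an automorphic representation `Π` of `G` is to transfer `Π` to `GL_N` by Langlands
functoriality, for one or for all representations `φ : Sp_{2n} → GL_N` of the dual group, and to use the Galois
representation `r_φ` of the lift, which is unramified at almost all places and maps the Frobenius elements to the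
class of `φ (s_v)`. One has to know whether the existence of all the `r_φ` implies the existence of a parameter
`r : Γ_K → Sp_{2n}` which maps the Frobenius elements to the class of `s_v`.

We show that this is not the case by formal reasons, for every number field `K` and every `n ≥ 5`: there is a system
of elements `s_v` of order at most two of `Sp_{2n}(ℤ)`, such that for *every* representation `φ` (even every abstract
homomorphism) of `Sp_{2n}(Ω)` on `Ω ^ N`, `Ω` any algebraically closed field of characteristic zero, there is a
homomorphism `r_φ : Γ_K → GL_N(Ω)` with open kernel, unramified outside `S` (which is independent of `φ`), which maps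
the Frobenius elements at all `v ∉ S` to the conjugacy class of `φ (s_v)`, but there is no continuous homomorphism
from `Γ_K` to `Sp_{2n}(Ω)` which maps the Frobenius elements at almost all `v` to the class of `s_v`, even in
`GL_{2n}(Ω)`, for any topological field `Ω` of characteristic zero.

The example: let `χ₁`, `χ₂` be independent quadratic characters, `s_v = 1` if both are trivial on the Frobenius
element at `v`, and otherwise let `s_v` be the element `g` which is `-1` on three of the `n` hyperbolic planes and `1`
on the others. A parameter would give a Klein four-group in `Sp_{2n}` whose nontrivial elements are conjugate to `g`,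
and the simultaneous eigenspaces would be symplectic spaces of odd dimension. The representation `r_φ` is
the sum of `q / 2` copies of `χ₁ ⊕ χ₂ ⊕ χ₁ χ₂` and `p - q / 2` copies of the trivial character, where `p`, `q` are
the multiplicities of the eigenvalues `1` and `-1` of `φ (g)`. The main point is the inequality `q ≤ 2 p`, for all
representations `φ`; it comes from five anticommuting involutions in `Sp₄` which are conjugate to the element
`(1, -1)` of `SL₂ × SL₂` and whose product is `-1`.
-/

set_option autoImplicit false

namespace Pool.Agent.Results.MP_666dc0_nt.NoFormalDescentFromGLN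

open NumberField IsDedekindDomain Matrix
open Pool.Agent.W401.Cheb (GK IsFrob IsInert)

/-- the matrices of size `2n` -/
def Mat (n : ℕ) (R : Type) : Type := Matrix (Fin n ⊕ Fin n) (Fin n ⊕ Fin n) R

instance (n : ℕ) (R : Type) [CommRing R] : Monoid (Mat n R) :=
  (Matrix.semiring : Semiring (Matrix (Fin n ⊕ Fin n) (Fin n ⊕ Fin n) R)).toMonoid

/-- the group `Sp_{2n}(R)` -/
def Sp (n : ℕ) (R : Type) [CommRing R] : Type := symplecticGroup (Fin n) R

instance (n : ℕ) (R : Type) [CommRing R] : Group (Sp n R) :=
  SymplecticGroup.instGroupSubtypeMatrixSumMemSubmonoidSymplecticGroup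

/-- the topology of `Sp_{2n}(R)` as a subspace of the space of matrices -/
instance (n : ℕ) (R : Type) [CommRing R] [TopologicalSpace R] : TopologicalSpace (Sp n R) :=
  @instTopologicalSpaceSubtype _ _ instTopologicalSpaceMatrix

/-- the matrix of an element of `Sp_{2n}(R)` -/
def Sp.mat {n : ℕ} {R : Type} [CommRing R] (x : Sp n R) : Mat n R := x.1

/-- the element of `Sp_{2n}(Ω)` which comes from an element of `Sp_{2n}(ℤ)` -/
def Sp.toField {n : ℕ} (x : Sp n ℤ) (Ω : Type) [Field Ω] : Sp n Ω :=
  ⟨x.1.map (Int.castRingHom Ω), SymplecticGroup.map_mem x.2 (Int.castRingHom Ω)⟩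

/-- the group `GL_N(Ω)` -/
def GLN (N : ℕ) (Ω : Type) [Field Ω] : Type := GL (Fin N) Ω

instance (N : ℕ) (Ω : Type) [Field Ω] : Group (GLN N Ω) := Units.instGroup

variable {K : Type} [Field K] [NumberField K] {n : ℕ}

/-- The homomorphism `r : Γ_K → GL_N(Ω)` has open kernel, it is unramified outside `S`, and it maps the
Frobenius elements at `v ∉ S` to the conjugacy class of `c v`. -/
def Attached (S : Set (HeightOneSpectrum (𝓞 K))) {Ω : Type} [Field Ω] {N : ℕ}
    (c : HeightOneSpectrum (𝓞 K) → GLN N Ω) (r : GK K →* GLN N Ω) : Prop :=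
  IsOpen (r.ker : Set (GK K)) ∧ ∀ v ∉ S, (∀ τ, IsInert v τ → r τ = 1) ∧ ∀ σ, IsFrob v σ → IsConj (r σ) (c v)

/-- For every algebraically closed field `Ω` of characteristic zero and every homomorphism `φ` from `Sp_{2n}(Ω)` to
`GL_N(Ω)` there is a homomorphism `r : Γ_K → GL_N(Ω)` with open kernel, unramified outside `S`, which maps the
Frobenius elements at `v ∉ S` to the conjugacy class of `φ (s v)`. -/
def AllRepresentations (S : Set (HeightOneSpectrum (𝓞 K))) (s : HeightOneSpectrum (𝓞 K) → Sp n ℤ) : Prop :=
  ∀ (Ω : Type) [Field Ω] [CharZero Ω] [IsAlgClosed Ω] (N : ℕ) (φ : Sp n Ω →* GLN N Ω),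
    ∃ r : GK K →* GLN N Ω, Attached S (fun v => φ ((s v).toField Ω)) r

/-- the homomorphism `r : Γ_K → Sp_{2n}(Ω)` maps the Frobenius elements at `v ∉ T` to matrices which are conjugate
to `s v` under `GL_{2n}(Ω)` -/
def WeaklyAttached (T : Set (HeightOneSpectrum (𝓞 K))) (s : HeightOneSpectrum (𝓞 K) → Sp n ℤ) {Ω : Type} [Field Ω]
    (r : GK K →* Sp n Ω) : Prop :=
  ∀ v ∉ T, ∀ σ, IsFrob v σ → IsConj (r σ).mat ((s v).toField Ω).mat

/-- There is no topological field `Ω` of characteristic zero and no continuous homomorphism from `Γ_K` to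
`Sp_{2n}(Ω)` which maps the Frobenius elements at all places outside a finite set to matrices which are conjugate
to `s v` under `GL_{2n}(Ω)`. -/
def NoParameter (s : HeightOneSpectrum (𝓞 K) → Sp n ℤ) : Prop :=
  ∀ (Ω : Type) [Field Ω] [CharZero Ω] [TopologicalSpace Ω] [IsTopologicalRing Ω] [T2Space Ω],
    ¬ ∃ r : GK K →* Sp n Ω, Continuous r ∧ ∃ T : Set (HeightOneSpectrum (𝓞 K)), T.Finite ∧ WeaklyAttached T s r

theorem result (K : Type) [Field K] [NumberField K] (n : ℕ) (hn : 5 ≤ n) :
    ∃ (S : Set (HeightOneSpectrum (𝓞 K))) (s : HeightOneSpectrum (𝓞 K) → Sp n ℤ),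
      S.Finite ∧ (∀ v, s v * s v = 1) ∧ AllRepresentations S s ∧ NoParameter s := by
  obtain ⟨S, s, h1, h2, h3, h4⟩ := Pool.Agent.H498.Sp.final K n hn
  exact ⟨S, s, h1, h2, fun Ω _ _ _ N φ => h3 Ω N φ, fun Ω _ _ _ _ _ => h4 Ω⟩

end Pool.Agent.Results.MP_666dc0_nt.NoFormalDescentFromGLN
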