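import Pool.Agent.H498.LG.Annih

/-!
# `ℓ`-adic parameters of reductive groups from parameters modulo `ℓ ^ m`

Let `K` be a number field, `G` a connected reductive group over `K` and `Π` an `L`-algebraic automorphic
representation of `G`, unramified outside `S`, whose Satake parameters `s_v` are defined over the number field
`E`; let `ι : E → ℚ̄_ℓ` be an embedding. The question asks for an admissible homomorphism of the Galois group into
the `L`-group of `G` over `ℚ̄_ℓ` with Satake parameters `ι(s_v)`. For `G = GL_n` such homomorphisms are usually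
obtained as limits of representations modulo `ℓ ^ m`, and the limit exists since a semisimple representation is
determined by its traces on the Frobenius elements. For general `G` this argument breaks down: homomorphisms
into the `L`-group are not determined by the classes of the Frobenius elements, so that the parameters `ρ m`
modulo `ℓ ^ m` need not be compatible with each other in any sense, even if all of them are congruent to `Π`;
and a representation into `GL_N` need not come from the `L`-group if the images of the Frobenius elements do.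

We show that the limit exists nevertheless, for every reductive group `G`: if for each `m` there is an admissible
homomorphism `ρ m` into the `L`-group over `ℤ̄_ℓ / ℓ ^ m` which is congruent to `Π` modulo `ℓ ^ m` at the places
outside `S` and outside a set `D m` of places of small upper density (it may be infinite and may vary with `m`),
and if each place outside `S` is outside `D m` for infinitely many `m`, then there is an admissible homomorphism `r`
into the `L`-group over `ℚ̄_ℓ`, unramified outside `S`, with the Satake parameters of `Π` at all places outside `S`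
(up to semisimplification of the image of Frobenius, which is not needed if the `ρ m` of infinitely many `Frob_v`
are annihilated by a polynomial without multiple roots, by the last clause).

The `L`-group is given as follows. The Galois group acts on the dual group through a finite quotient, and we embed
the semidirect product with this quotient, a group scheme over `ℤ`, as a closed subgroup of `GL_N`. For an
element `γ` of the Galois group, `C γ` is a set of polynomials with integral coefficients whose zeros in `GL_N`
are the coset of the dual group which belongs to `γ`; a homomorphism `r` is admissible if `r γ` is a zero of `C γ` for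
all `γ`. All we use is that the complex points of these cosets are compatible with products and inverses, and that
they are reductive: in a suitable basis they are stable under the conjugate transpose (this is the case for all
complex reductive groups, by a theorem of Mostow). The Satake parameter `s_v` is given by the values of the
polynomials in the entries which are invariant under conjugation by the dual group; `Φ` is any set of such
polynomials of degree at most `k` which contains the trace. These values determine the semisimple conjugacy class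
if `Φ` is large enough.

The proof has the following steps. The values of the `f ∈ Φ` on the `ρ m` converge by an uncertainty principle
over the rings `ℤ̄_ℓ / ℓ ^ m` for functions of finite rank. The limit of the traces is the trace of a semisimple
representation `r₀` into `GL_N`. For a finitely generated subgroup of the Galois group we construct from the
`ρ m` a homomorphism into the `L`-group over the complex numbers, for an embedding of `ℚ̄_ℓ` in the complex numbers,
with the values of the limit. We semisimplify it inside the `L`-group, by minimizing the sum of the squares of the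
logarithms of the singular values of generators: at a minimum the logarithmic moment map, which takes values in the
Lie algebra of the reductive group, vanishes, and by Jensen's inequality the orthogonal complements of
stable subspaces are stable. The result is conjugate to `r₀` in `GL_N`, so that `r₀` is conjugate over
`ℚ̄_ℓ` to a homomorphism into the `L`-group, first on finite sets and then, by Hilbert's basis theorem, on the whole
Galois group.
-/

set_option autoImplicit false

namespace Pool.Agent.Results.MP_666dc0_nt.ParametersOfReductiveGroups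

open NumberField IsDedekindDomain Polynomial
open Pool.Agent.W401.Cheb (GK IsFrob IsInert dens)
open Pool.Agent.X320.DS (Semisimple)

section
variable (ℓ : ℕ) [Fact ℓ.Prime]

/-- the field `ℚ̄_ℓ`, with the `ℓ`-adic absolute value -/
def Qbar : Type := PadicAlgCl ℓ

noncomputable instance : NormedField (Qbar ℓ) := PadicAlgCl.normedField ℓ

/-- the ring `ℤ̄_ℓ` of the elements of absolute value at most one of `ℚ̄_ℓ` -/
noncomputable def integers : Subring (Qbar ℓ) where
  carrier := {x | ‖x‖ ≤ 1}
  mul_mem' ha hb := (norm_mul_le _ _).trans (mul_le_one₀ ha (norm_nonneg _) hb)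
  one_mem' := norm_one.le
  add_mem' ha hb := (PadicAlgCl.isNonarchimedean ℓ _ _).trans (max_le ha hb)
  zero_mem' := norm_zero.le.trans zero_le_one
  neg_mem' ha := (norm_neg _).le.trans ha

/-- the ring `ℤ̄_ℓ` -/
def Zbar : Type := integers ℓ

noncomputable instance : CommRing (Zbar ℓ) := (integers ℓ).toCommRing

/-- the inclusion of `ℤ̄_ℓ` in `ℚ̄_ℓ` -/
noncomputable def incl : Zbar ℓ →+* Qbar ℓ := (integers ℓ).subtype

/-- the ring `ℤ̄_ℓ / ℓ ^ m` -/
def ZbarMod (m : ℕ) : Type := Zbar ℓ ⧸ Ideal.span {(ℓ : Zbar ℓ) ^ m}

noncomputable instance (m : ℕ) : CommRing (ZbarMod ℓ m) :=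
  Ideal.Quotient.commRing (Ideal.span {(ℓ : Zbar ℓ) ^ m})

/-- reduction modulo `ℓ ^ m` -/
noncomputable def red (m : ℕ) : Zbar ℓ →+* ZbarMod ℓ m := Ideal.Quotient.mk _

end

variable {K : Type} [Field K] [NumberField K] {E : Type} [Field E] {ℓ : ℕ} [Fact ℓ.Prime] {N : ℕ}

/-- the element `x` of `ℚ̄_ℓ` is integral with the reduction `y` modulo `ℓ ^ m` -/
def ReducesTo (m : ℕ) (x : Qbar ℓ) (y : ZbarMod ℓ m) : Prop := ∃ h : x ∈ integers ℓ, red ℓ m ⟨x, h⟩ = y

/-- the upper natural density of the set `D` of places: `dens` is the number of places in `D` of norm at most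
`N`, divided by the number of primes up to `N` -/
noncomputable def upperDensity (D : Set (HeightOneSpectrum (𝓞 K))) : ℝ :=
  Filter.limsup (dens fun v => v ∈ D) Filter.atTop

/-- polynomials with integral coefficients in the entries of an `N × N` matrix -/
abbrev Poly (N : ℕ) : Type := MvPolynomial (Fin N × Fin N) ℤ

/-- the value of the polynomial `f` at the matrix `A` -/
noncomputable def value {R : Type} [CommRing R] (f : Poly N) (A : GL (Fin N) R) : R :=
  MvPolynomial.aeval (fun p : Fin N × Fin N => A.val p.1 p.2) f

/-- the invertible matrices over `R` which are zeros of the polynomials in `C` -/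
def points (C : Set (Poly N)) (R : Type) [CommRing R] : Set (GL (Fin N) R) := {A | ∀ P ∈ C, value P A = 0}

/-- The polynomial `Q` annihilates the matrix `A`. -/
def Kills {R : Type} [CommRing R] (Q : R[X]) (A : GL (Fin N) R) : Prop := aeval A.val Q = 0

/-- the group `GL_N` of the complex numbers -/
abbrev GLC (N : ℕ) : Type := GL (Fin N) ℂ

/-- The zeros of `C γ` over the complex numbers, for `γ` in the Galois group, are compatible with products and
inverses, and reductive: in the basis given by `h` they are stable under the conjugate transpose `star`. -/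
structure IsLGroup (C : GK K → Set (Poly N)) : Prop where
  mul : ∀ γ γ', ∀ A ∈ points (C γ) ℂ, ∀ B ∈ points (C γ') ℂ, A * B ∈ points (C (γ * γ')) ℂ
  inv : ∀ γ, ∀ A ∈ points (C γ) ℂ, A⁻¹ ∈ points (C γ⁻¹) ℂ
  one : (1 : GLC N) ∈ points (C 1) ℂ
  reductive : ∃ h : GLC N, ∀ γ, ∀ A : GLC N, h * A * h⁻¹ ∈ points (C γ) ℂ → h * star A * h⁻¹ ∈ points (C γ⁻¹) ℂ

/-- The polynomial `f` is invariant under conjugation by the zeros of `C 1` over the complex numbers. -/
def Invariant (C : GK K → Set (Poly N)) (f : Poly N) : Prop :=
  ∀ γ, ∀ A ∈ points (C γ) ℂ, ∀ B ∈ points (C 1) ℂ, value f (B * A * B⁻¹) = value f A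

/-- the trace of a matrix -/
noncomputable def tr (N : ℕ) : Poly N := ∑ i, MvPolynomial.X (i, i)

/-- a set of invariant polynomials of degree at most `k` which contains the trace -/
structure TestSet (C : GK K → Set (Poly N)) (k : ℕ) (Φ : Set (Poly N)) : Prop where
  invariant : ∀ f ∈ Φ, Invariant C f
  degree : ∀ f ∈ Φ, f.totalDegree ≤ k
  trace : tr N ∈ Φ

/-- The homomorphism `ρ` is unramified at `v`, and `ρ σ` is congruent to `s σ` modulo `ℓ ^ m` for the Frobenius
elements `σ` at `v`, as far as the polynomials in `Φ` are concerned. -/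
structure MatchesMod (m : ℕ) (ρ : GK K →* GL (Fin N) (ZbarMod ℓ m)) (Φ : Set (Poly N))
    (s : GK K → GL (Fin N) (Qbar ℓ)) (v : HeightOneSpectrum (𝓞 K)) : Prop where
  unramified : ∀ τ, IsInert v τ → ρ τ = 1
  frobenius : ∀ σ, IsFrob v σ → ∀ f ∈ Φ, ReducesTo m (value f (s σ)) (value f (ρ σ))

/-- The values of the polynomials in `Φ` at `s σ` are in `ι E` for the Frobenius elements `σ` outside `S`; the
`ρ m` are continuous admissible homomorphisms over `ℤ̄_ℓ / ℓ ^ m`, congruent to `s` at the places outside `S` and
`D m`; each place outside `S` is outside `D m` for infinitely many `m`. -/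
structure CongruentSystem (ι : E →+* Qbar ℓ) (C : GK K → Set (Poly N)) (Φ : Set (Poly N))
    (S : Set (HeightOneSpectrum (𝓞 K))) (s : GK K → GL (Fin N) (Qbar ℓ))
    (ρ : (m : ℕ) → GK K →* GL (Fin N) (ZbarMod ℓ m)) (D : ℕ → Set (HeightOneSpectrum (𝓞 K))) : Prop where
  finite : S.Finite
  rational : ∀ v ∉ S, ∀ σ, IsFrob v σ → ∀ f ∈ Φ, ∃ e : E, value f (s σ) = ι e
  continuous : ∀ m, IsOpen ((ρ m).ker : Set (GK K))
  admissible : ∀ m γ, ρ m γ ∈ points (C γ) (ZbarMod ℓ m)
  congruent : ∀ m, ∀ v ∉ S, v ∉ D m → MatchesMod m (ρ m) Φ s v
  infinite : ∀ v ∉ S, {m | v ∉ D m}.Infinite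

/-- The homomorphism `r` is unramified at `v`, and `r σ` and `s σ` have the same invariants for the Frobenius
elements `σ` at `v`, as far as the polynomials in `Φ` are concerned. -/
structure Matches (Φ : Set (Poly N)) (s : GK K → GL (Fin N) (Qbar ℓ)) (r : GK K →* GL (Fin N) (Qbar ℓ))
    (v : HeightOneSpectrum (𝓞 K)) : Prop where
  unramified : ∀ τ, IsInert v τ → r τ = 1
  frobenius : ∀ σ, IsFrob v σ → ∀ f ∈ Φ, value f (r σ) = value f (s σ)

/-- The homomorphism `r` is continuous, semisimple and admissible, and matches `s` at the places outside `S`. -/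
structure Attached (C : GK K → Set (Poly N)) (Φ : Set (Poly N)) (S : Set (HeightOneSpectrum (𝓞 K)))
    (s : GK K → GL (Fin N) (Qbar ℓ)) (r : GK K →* GL (Fin N) (Qbar ℓ)) : Prop where
  continuous : Continuous r
  semisimple : Semisimple r
  admissible : ∀ γ, r γ ∈ points (C γ) (Qbar ℓ)
  frobenius : ∀ v ∉ S, Matches Φ s r v

/-- the invariants of `r γ` reduce to those of `ρ γ`, for all `γ` in the Galois group -/
def Reduces (Φ : Set (Poly N)) (m : ℕ) (ρ : GK K →* GL (Fin N) (ZbarMod ℓ m)) (r : GK K →* GL (Fin N) (Qbar ℓ)) :
    Prop :=
  ∀ γ, ∀ f ∈ Φ, ReducesTo m (value f (r γ)) (value f (ρ γ))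

/-- the reduction of the polynomial `Q` annihilates `ρ γ` -/
def KillsMod (Q : (Zbar ℓ)[X]) (m : ℕ) (ρ : GK K →* GL (Fin N) (ZbarMod ℓ m)) (γ : GK K) : Prop :=
  Kills (Q.map (red ℓ m)) (ρ γ)

/-- The invariants of `r` reduce to those of all `ρ m`, and a polynomial which annihilates `ρ m γ` for infinitely
many `m` annihilates `r γ`. -/
structure IsLimit (Φ : Set (Poly N)) (ρ : (m : ℕ) → GK K →* GL (Fin N) (ZbarMod ℓ m))
    (r : GK K →* GL (Fin N) (Qbar ℓ)) : Prop where
  reduces : ∀ m, Reduces Φ m (ρ m) r
  kills : ∀ γ Q, {m | KillsMod Q m (ρ m) γ}.Infinite → Kills (Q.map (incl ℓ)) (r γ)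

theorem result (K : Type) [Field K] [NumberField K] (E : Type) [Field E] [NumberField E] (ℓ : ℕ)
    [Fact ℓ.Prime] (ι : E →+* Qbar ℓ) (N k : ℕ) (C : GK K → Set (Poly N)) (hC : IsLGroup C)
    (Φ : Set (Poly N)) (hΦ : TestSet C k Φ) (S : Set (HeightOneSpectrum (𝓞 K)))
    (s : GK K → GL (Fin N) (Qbar ℓ)) (ρ : (m : ℕ) → GK K →* GL (Fin N) (ZbarMod ℓ m))
    (D : ℕ → Set (HeightOneSpectrum (𝓞 K))) (H : CongruentSystem ι C Φ S s ρ D)
    (hD : ∀ m, upperDensity (D m) < 1 / (4 * (N ^ 2 + k).choose k)) :
    ∃ r : GK K →* GL (Fin N) (Qbar ℓ), Attached C Φ S s r ∧ IsLimit Φ ρ r := by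
  let b := Module.finBasis ℚ E
  let ι' : E →+* PadicAlgCl ℓ := ι
  let ρ' : (m : ℕ) → GK K →* GL (Fin N) (Pool.Agent.H498.BG.ZQ ℓ m) := ρ
  let s' : GK K → GL (Fin N) (PadicAlgCl ℓ) := s
  let L : Submodule ℚ_[ℓ] (PadicAlgCl ℓ) := Submodule.span ℚ_[ℓ] (Set.range fun i => ι' (b i))
  have : FiniteDimensional ℚ_[ℓ] L := FiniteDimensional.span_of_finite ℚ_[ℓ] (Set.finite_range _)
  have hL : ∀ x : E, ι' x ∈ L := by
    intro x
    rw [← b.sum_repr x, map_sum]
    refine Submodule.sum_mem _ fun i _ => ?_
    have e : ι' (b.repr x i • b i) = ((b.repr x i : ℚ) : ℚ_[ℓ]) • ι' (b i) := by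
      rw [Algebra.smul_def, map_mul, Algebra.smul_def]
      congr 1
      rw [map_ratCast]
      simp
    rw [e]
    exact Submodule.smul_mem _ _ (Submodule.subset_span ⟨i, rfl⟩)
  let c : Pool.Agent.H498.LG.Poly N → GK K → PadicAlgCl ℓ := fun f γ =>
    Pool.Agent.H498.LG.val f (s' γ : Matrix (Fin N) (Fin N) (PadicAlgCl ℓ))
  have hsys : Pool.Agent.H498.LG.Sys k Φ c S L ρ' D :=
    { fin := H.finite
      deg := hΦ.degree
      coeff := fun f hf v hv σ hσ => by
        obtain ⟨e, he⟩ := H.rational v hv σ hσ f hf
        have he' : c f σ = ι' e := he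
        rw [he']
        exact hL e
      opn := H.continuous
      dens := hD
      unr := fun m v hv hvD => (H.congruent m v hv hvD).unramified
      mat := fun m v hv hvD f hf σ hσ => by
        obtain ⟨h, e⟩ := (H.congruent m v hv hvD).frobenius σ hσ f hf
        exact ⟨h, e.symm⟩
      inf := H.infinite }
  have hdat : Pool.Agent.H498.LG.Datum C :=
    { mul := hC.mul
      inv := hC.inv
      one := hC.one
      red := by
        obtain ⟨h, hh⟩ := hC.reductive
        refine ⟨h, fun γ A B e hA => ?_⟩
        have e' : B = star A := Units.ext e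
        rw [e']
        exact hh γ A hA }
  obtain ⟨r, h1, h2, h3, h4, h5, h6, h7⟩ := hsys.parameter' hΦ.trace C hdat hΦ.invariant H.admissible
  exact ⟨r, ⟨h1, h2, h4, fun v hv => ⟨h3 v hv, fun σ hσ f hf => h6 f hf v hv σ hσ⟩⟩,
    fun m γ f hf => h5 f hf m γ, h7⟩

end Pool.Agent.Results.MP_666dc0_nt.ParametersOfReductiveGroups
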