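import Pool.Agent.H500.ED.All

/-!
# Solvable residual images: existence of `r_Π` for all `ℓ`, and a zero-one law

Let `Π` be an L-algebraic automorphic representation of `GL_n` over the number field `K` whose
Satake parameters at the places `v ∤ N` are defined over the number field `E` (with integral
coefficients, after a twist): `P v ∈ 𝓞_E[X]` is the characteristic polynomial of `s_v`.  The theorem is
about arbitrary polynomials `P v`; nothing is assumed at infinity or at the places dividing `N`.

For a place `lam` of `E` a residual representation attached to `P` at `lam` is a representation of the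
absolute Galois group `Γ_K` over a field `k` which contains the residue field of `lam`, with open kernel,
unramified at the places `v ∤ N lam`, where the characteristic polynomial of Frobenius is `P v` modulo
`lam`.

Zero-one law: either the set of the `lam` which have a residual representation with solvable image has
natural density zero, or ALL the residual representations attached to `P`, at all `lam`, have solvable
image.  In the second case there are a finite solvable extension `L` of `K`, unramified at the places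
`v ∤ N`, and algebraic Hecke characters `ψ_1, …, ψ_n` of `L` such that for `w ∣ v ∤ N` the `f(w/v)`-th powers
of the eigenvalues of `s_v` are the `ψ_i(w)`; and for ALL primes `ℓ` and all embeddings of `E` in `ℚ̄_ℓ` there
is a continuous semisimple representation `r_Π` of `Γ_K` over `ℚ̄_ℓ`, unramified at all `v ∤ N ℓ`, where the
characteristic polynomial of Frobenius is `P v`, with semisimple (diagonalizable) Frobenius elements,
diagonal on the absolute Galois group of `L`.  All
continuous semisimple `ℓ`-adic representations attached to `P` are abelian there.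

Steps of the proof: the theorem of Mal'cev; Kummer theory and Chebotarev's theorem for families of
fields, class field theory over `K`, `E` and the fields in between (projects SV, TH, ZO): existence
of the Hecke characters with natural exponents; the existence theorem of class field theory for
the ray classes modulo `l^m`: the elements of the commutator subgroup of `Γ_L` act unipotently.  For the
existence (project ED): the `ℓ`-adic characters of Hecke characters; the residual representations of
large characteristic `l` have image of order prime to `l` and lift to characteristic zero; their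
constituents are twisted by the `ℓ`-adic characters of Hecke characters of intermediate fields which are
congruent to `1` modulo `lam`; the resulting representations have finitely many possible traces, and one
of them fits for infinitely many `lam`.
-/

set_option autoImplicit false

namespace Pool.Agent.Results.MP_666dc0_nt.SolvableResidualImages

open NumberField IsDedekindDomain Filter Topology Polynomial
open Pool.Agent.W401.Cheb (GK IsFrob IsInert dens)
open Pool.Agent.H500.HC (InRay QBar ZBar jz)
open Pool.Agent.H500.SV (Above Fld)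
open Pool.Agent.H500.TH (typB)
open Pool.Agent.H500.ZO (SemiS)

section

variable {K E : Type} [Field K] [NumberField K] [Field E] [NumberField E]

/-- `ρ` is a residual representation at `lam` attached to `P`: `φ` is a homomorphism from `𝓞_E` to the field
`k` with kernel `lam`, `ρ` has open kernel, is unramified at the places `v` which do not contain `N` nor the
norm of `lam`, and the characteristic polynomial of a Frobenius element at such `v` is `φ (P v)`. -/
structure ResidualAttached (N n : ℕ) (P : HeightOneSpectrum (𝓞 K) → (𝓞 E)[X])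
    (lam : HeightOneSpectrum (𝓞 E)) {k : Type} [Field k] (φ : 𝓞 E →+* k)
    (ρ : GK K →* GL (Fin n) k) : Prop where
  ker : RingHom.ker φ = lam.asIdeal
  isOpen : IsOpen (ρ.ker : Set (GK K))
  unramified : ∀ v : HeightOneSpectrum (𝓞 K),
    ((N * Ideal.absNorm lam.asIdeal : ℕ) : 𝓞 K) ∉ v.asIdeal → ∀ τ, IsInert v τ → ρ τ = 1
  frobenius : ∀ v : HeightOneSpectrum (𝓞 K), (N : 𝓞 K) ∉ v.asIdeal →
    ((Ideal.absNorm lam.asIdeal : ℕ) : 𝓞 K) ∉ v.asIdeal → ∀ σ, IsFrob v σ →
    (ρ σ : Matrix (Fin n) (Fin n) k).charpoly = (P v).map φ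

/-- There is a residual representation with solvable image at `lam`. -/
def SolvableAt (N n : ℕ) (P : HeightOneSpectrum (𝓞 K) → (𝓞 E)[X])
    (lam : HeightOneSpectrum (𝓞 E)) : Prop :=
  ∃ (k : Type) (_ : Field k) (φ : 𝓞 E →+* k) (ρ : GK K →* GL (Fin n) k),
    ResidualAttached N n P lam φ ρ ∧ Group.IsSolvable ρ.range

/-- `ρ` is a continuous semisimple representation over the `ℓ`-adic field `C` attached to `κ (P v)`: it
is unramified at the places `v` which do not contain `N` nor `ℓ`, where the characteristic polynomial of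
a Frobenius element is `κ (P v)`. -/
structure AdicAttached (N n : ℕ) (P : HeightOneSpectrum (𝓞 K) → (𝓞 E)[X]) (ℓ : ℕ) {C : Type}
    [NormedField C] (κ : E →+* C) (ρ : GK K →* GL (Fin n) C) : Prop where
  continuous : Continuous (fun g => (ρ g : Matrix (Fin n) (Fin n) C))
  semisimple : SemiS ρ
  unramified : ∀ v : HeightOneSpectrum (𝓞 K), (N : 𝓞 K) ∉ v.asIdeal → (ℓ : 𝓞 K) ∉ v.asIdeal →
    ∀ τ, IsInert v τ → ρ τ = 1
  frobenius : ∀ v : HeightOneSpectrum (𝓞 K), (N : 𝓞 K) ∉ v.asIdeal → (ℓ : 𝓞 K) ∉ v.asIdeal →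
    ∀ σ, IsFrob v σ → (ρ σ : Matrix (Fin n) (Fin n) C).charpoly =
      (P v).map (κ.comp (algebraMap (𝓞 E) E))

/-- `ψ_1, …, ψ_n` are algebraic Hecke characters of `L` (zero at the ideals which are not prime to `N`,
`ψ_i((x)) = ∏_σ σ(x)^(t_i(σ))` for `x ≡ 1 mod N^e` totally positive) which give the polynomials `P v` over `L`:
for `w` above `v ∤ N` of residue degree `f` the `f`-th powers of the roots of `P v` are the `ψ_i(w)`. -/
structure HeckeCharacters (j : E →+* QBar) (N n : ℕ) (P : HeightOneSpectrum (𝓞 K) → (𝓞 E)[X])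
    (L : Type) [Field L] [NumberField L] [Algebra K L] (e : ℕ) (t : Fin n → (L →+* QBar) → ℕ)
    (ψ : Fin n → (Ideal (𝓞 L) →*₀ ZBar)) : Prop where
  coprime : ∀ i (𝔞 : Ideal (𝓞 L)), 𝔞 ≠ ⊥ →
    (ψ i 𝔞 ≠ 0 ↔ IsCoprime 𝔞 (Ideal.span {(N : 𝓞 L)}))
  type : ∀ i (x : 𝓞 L), InRay (N ^ e) x → ψ i (Ideal.span {x}) = typB (t i) x
  monic : ∀ v : HeightOneSpectrum (𝓞 K), (N : 𝓞 K) ∉ v.asIdeal →
    (P v).Monic ∧ (P v).natDegree = n
  eq : ∀ (v : HeightOneSpectrum (𝓞 K)) (w : HeightOneSpectrum (𝓞 L)) (f : ℕ) (α : Fin n → ZBar),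
    (N : 𝓞 K) ∉ v.asIdeal → Above w v →
    Ideal.absNorm w.asIdeal = Ideal.absNorm v.asIdeal ^ f →
    (P v).map (jz j) = ∏ i, (X - Polynomial.C (α i)) →
    ∏ i, (X - Polynomial.C (α i ^ f)) = ∏ i, (X - Polynomial.C (ψ i w.asIdeal))

end

/-- **Solvable residual images: existence of `r_Π` for all `ℓ`, and a zero-one law.** -/
theorem result {K E : Type} [Field K] [NumberField K] [Field E] [NumberField E]
    (j : E →+* QBar) (N n : ℕ) (hN : 2 ≤ N) (P : HeightOneSpectrum (𝓞 K) → (𝓞 E)[X]) :
    Tendsto (dens (SolvableAt N n P)) atTop (𝓝 0) ∨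
    ((∀ (lam : HeightOneSpectrum (𝓞 E)) (k : Type) [Field k] (φ : 𝓞 E →+* k)
        (ρ : GK K →* GL (Fin n) k), ResidualAttached N n P lam φ ρ → Group.IsSolvable ρ.range) ∧
      ∃ (U : Subgroup (GK K)) (L : Type) (_ : Field L) (_ : NumberField L) (_ : Algebra K L)
        (ι : GK L →* GK K), U.Normal ∧ IsOpen (U : Set (GK K)) ∧ Fld U L ι ∧
        Group.IsSolvable (L ≃ₐ[K] L) ∧
        (∀ (v : HeightOneSpectrum (𝓞 K)), (N : 𝓞 K) ∉ v.asIdeal →
          (∀ τ, IsInert v τ → τ ∈ U) ∧ ∀ w : HeightOneSpectrum (𝓞 L), Above w v →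
            ¬ v.asIdeal.map (algebraMap (𝓞 K) (𝓞 L)) ≤ w.asIdeal ^ 2) ∧
        (∃ (e : ℕ) (t : Fin n → (L →+* QBar) → ℕ) (ψ : Fin n → (Ideal (𝓞 L) →*₀ ZBar)),
          HeckeCharacters j N n P L e t ψ) ∧
        (∀ (ℓ : ℕ) [Fact ℓ.Prime] (κ : E →+* PadicAlgCl ℓ),
          ∃ ρ : GK K →* GL (Fin n) (PadicAlgCl ℓ), AdicAttached N n P ℓ κ ρ ∧
            (∀ u ∈ U, (ρ u : Matrix (Fin n) (Fin n) (PadicAlgCl ℓ)).IsDiag) ∧
            ∀ g, ∃ (h : GL (Fin n) (PadicAlgCl ℓ)) (d : Fin n → PadicAlgCl ℓ),
              (ρ g : Matrix (Fin n) (Fin n) (PadicAlgCl ℓ)) =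
                (h : Matrix (Fin n) (Fin n) (PadicAlgCl ℓ)) * Matrix.diagonal d *
                  ((h⁻¹ : GL (Fin n) (PadicAlgCl ℓ)) : Matrix (Fin n) (Fin n) (PadicAlgCl ℓ))) ∧
        ∀ (ℓ : ℕ) [Fact ℓ.Prime] (C : Type) [NormedField C] [NormedAlgebra ℚ_[ℓ] C]
          [IsUltrametricDist C] (κ : E →+* C) (ρ : GK K →* GL (Fin n) C),
          AdicAttached N n P ℓ κ ρ → ∀ g ∈ U, ∀ h ∈ U, ρ g * ρ h = ρ h * ρ g) := by
  by_cases hd : Tendsto (dens (SolvableAt N n P)) atTop (𝓝 0)
  · exact Or.inl hd
  · right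
    have hpos : Pool.Agent.H500.MW.PosUD (Pool.Agent.H500.TH.SolRes N n P) := by
      refine Pool.Agent.H500.MW.PosUD.mono (Pool.Agent.H500.MW.posUD_of_not hd) ?_
      rintro lam ⟨k, _, φ, ρ, h, hs⟩
      exact ⟨k, inferInstance, φ, ρ, h.ker, h.isOpen, h.unramified, h.frobenius, hs⟩
    obtain ⟨U, L, _, _, _, ι, e, t, ψ, hP, hex⟩ :=
      Pool.Agent.H500.ED.all_EDM K E j N n hN P hpos
    refine ⟨?_, U, L, inferInstance, inferInstance, inferInstance, ι, hP.normal, hP.isOpen, hP.fld,
      hP.fld.sol hP.solv, fun v hv => ⟨hP.unr v hv, fun w hw => hP.fld.unr N hP.unr v w hw hv⟩,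
      ⟨e, t, ψ, hP.cop, hP.typ, hP.monic, hP.eq⟩, ?_, ?_⟩
    · intro lam k _ φ ρ h
      exact Pool.Agent.H500.ZO.all_ZL K E j N n P U L ι e t ψ hN hP lam k φ ρ h.ker h.isOpen
        h.frobenius h.unramified
    · intro ℓ _ κ
      obtain ⟨κ', rfl⟩ := Pool.Agent.H500.ED.exists_ext j κ
      obtain ⟨R, hR1, hR2, hR3, hR4⟩ := hex ℓ κ'
      have hd : ∀ u ∈ U, (R u : Matrix (Fin n) (Fin n) (PadicAlgCl ℓ)).IsDiag := by
        intro u hu
        have h2 : u ∈ ι.range := by
          rw [hP.fld.range]
          exact hu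
        obtain ⟨s, rfl⟩ := h2
        exact hR3 s
      have hfi : U.FiniteIndex := by
        have := Subgroup.quotient_finite_of_isOpen _ hP.isOpen
        exact Subgroup.finiteIndex_of_finite_quotient
      exact ⟨R, ⟨hR1, hR2, fun v hv hℓ => (hR4 v hv hℓ).1, fun v hv hℓ => (hR4 v hv hℓ).2⟩, hd,
        fun g => Pool.Agent.H500.ED.diag_of_index R U hP.normal hfi hd g⟩
    · intro ℓ _ C _ _ _ κ ρ h
      exact Pool.Agent.H500.ZO.all_ABL K E j N n P U L ι e t ψ hN hP ℓ C κ ρ h.continuous
        h.semisimple fun v hv hℓ => ⟨h.unramified v hv hℓ, h.frobenius v hv hℓ⟩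

end Pool.Agent.Results.MP_666dc0_nt.SolvableResidualImages
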